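import Pool.Agent.W251.EX.Defs2
import Pool.Agent.W395.EC.B6
import Pool.Agent.W45.GA.Lat

/-!
# EY-REGX: the sums over pairs vary slowly
-/

set_option autoImplicit false

namespace Pool.Agent.W108.EX

open Finset
open Pool.Agent.W78.GA Pool.Agent.W78.EC Pool.Agent.W251.EX
open Pool.Agent.W395.EC (hD)

/-- number of lattice points in balls -/
lemma cntb : ∃ K C : ℝ, 0 < K ∧ 0 < C ∧ ∀ X : ℝ, 1 ≤ X →
    |((ball 0 1 X).card : ℝ) - K * X| ≤ C * Real.sqrt X := by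
  obtain ⟨C, hC, h, -⟩ := Pool.Agent.W45.GA.lat (t := 0) (c := 1) hD
  refine ⟨kap 0 1, C, ?_, hC, fun X hX => ?_⟩
  · unfold kap
    have h4 : (0 : ℝ) < 4 * ((1 : ℤ) : ℝ) - ((0 : ℤ) : ℝ) ^ 2 := by norm_num
    have := Real.sqrt_pos.2 h4
    have := Real.pi_pos
    positivity
  · have := h X 1 0 hX le_rfl
    rwa [filter_true_of_mem (fun z _ => by unfold lat; simp), Nat.cast_one, div_one] at this

/-- primitive elements with norm in a window -/
noncomputable def thin (a b : ℝ) : Finset Gi := (pball 0 1 b).filter (fun z => a < (nm z : ℝ))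

lemma mem_thin {a b : ℝ} {z : Gi} : z ∈ thin a b ↔ (prim z ∧ (nm z : ℝ) ≤ b) ∧ a < (nm z : ℝ) := by
  unfold thin
  rw [mem_filter, mem_pball hD]

lemma thin_card : ∃ C : ℝ, 0 < C ∧ ∀ s : ℝ, 0 < s → s ≤ 1 → ∀ δ : ℝ, 0 < δ → δ ≤ 1 → ∃ X₀ : ℝ,
    ∀ X X' : ℝ, X₀ ≤ X → X ≤ X' → X' ≤ (1 + δ) * X →
      ((thin (s * X) (s * X')).card : ℝ) ≤ C * δ * X := by
  obtain ⟨K, C, hK, hC, h⟩ := cntb
  refine ⟨K + 1, by positivity, ?_⟩
  intro s hs hs1 δ hδ hδ1
  refine ⟨max (1 / s) (8 * C ^ 2 / δ ^ 2), ?_⟩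
  intro X X' hX hXX hX'
  have hX1 : 1 / s ≤ X := (le_max_left _ _).trans hX
  have hX2 : 8 * C ^ 2 / δ ^ 2 ≤ X := (le_max_right _ _).trans hX
  have hsX : 1 ≤ s * X := by
    rw [div_le_iff₀ hs] at hX1
    linarith
  have hX0 : 0 < X := by
    by_contra hneg
    push Not at hneg
    nlinarith
  have hsX' : s * X ≤ s * X' := by gcongr
  have hsub : thin (s * X) (s * X') ⊆ ball 0 1 (s * X') \ ball 0 1 (s * X) := by
    intro z hz
    rw [mem_thin] at hz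
    rw [mem_sdiff, mem_ball hD, mem_ball hD]
    refine ⟨⟨?_, hz.1.2⟩, fun h => absurd h.2 (not_le.2 hz.2)⟩
    have : (1 : ℝ) < nm z := hsX.trans_lt hz.2
    exact_mod_cast this.le
  have hsub2 : (ball 0 1 (s * X) : Finset Gi) ⊆ ball 0 1 (s * X') := by
    intro z hz
    rw [mem_ball hD] at hz ⊢
    exact ⟨hz.1, hz.2.trans hsX'⟩
  have hcard : ((thin (s * X) (s * X')).card : ℝ) ≤
      ((ball 0 1 (s * X') : Finset Gi).card : ℝ) - ((ball 0 1 (s * X) : Finset Gi).card : ℝ) := by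
    have h1 := card_le_card hsub
    have h2 := card_sdiff_add_card_eq_card hsub2
    have h3 : ((ball 0 1 (s * X') \ ball 0 1 (s * X) : Finset Gi).card : ℝ) +
        ((ball 0 1 (s * X) : Finset Gi).card : ℝ) = ((ball 0 1 (s * X') : Finset Gi).card : ℝ) := by
      exact_mod_cast h2
    have h4 : ((thin (s * X) (s * X')).card : ℝ) ≤
        ((ball 0 1 (s * X') \ ball 0 1 (s * X) : Finset Gi).card : ℝ) := by exact_mod_cast h1
    linarith
  have e1 := abs_le.1 (h (s * X) hsX)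
  have e2 := abs_le.1 (h (s * X') (hsX.trans hsX'))
  have hX'0 : 0 ≤ X' := hX0.le.trans hXX
  have h2X : X' ≤ 2 * X := by nlinarith
  have r1 : Real.sqrt (s * X) ≤ Real.sqrt (2 * X) := Real.sqrt_le_sqrt (by nlinarith)
  have r2 : Real.sqrt (s * X') ≤ Real.sqrt (2 * X) := Real.sqrt_le_sqrt (by nlinarith)
  have r3 : Real.sqrt (2 * X) ≤ δ * X / (2 * C) := by
    rw [Real.sqrt_le_left (by positivity), div_pow, le_div_iff₀ (by positivity)]
    rw [div_le_iff₀ (by positivity)] at hX2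
    nlinarith
  have r4 : 2 * C * Real.sqrt (2 * X) ≤ δ * X := by
    rw [le_div_iff₀ (by positivity)] at r3
    linarith
  have r5 : C * Real.sqrt (s * X) ≤ C * Real.sqrt (2 * X) := by gcongr
  have r6 : C * Real.sqrt (s * X') ≤ C * Real.sqrt (2 * X) := by gcongr
  have r7 : K * (s * X') - K * (s * X) ≤ K * (δ * X) := by
    have : s * (X' - X) ≤ 1 * (δ * X) := by
      apply mul_le_mul hs1 (by linarith) (by linarith) (by norm_num)
    nlinarith
  calc ((thin (s * X) (s * X')).card : ℝ) ≤ K * (δ * X) + δ * X := by linarith [e1.1, e2.2]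
    _ = (K + 1) * δ * X := by ring

/-- pairs of determinant one whose first entry lies in a given set -/
noncomputable def P1 (T : Finset Gi) (X : ℝ) : Finset (Gi × Gi) :=
  (T ×ˢ ball 0 1 (4 * X)).filter (fun e => dt e.1 e.2 = 1)

/-- pairs of determinant one whose second entry lies in a given set -/
noncomputable def P2 (T : Finset Gi) (X : ℝ) : Finset (Gi × Gi) :=
  (ball 0 1 (4 * X) ×ˢ T).filter (fun e => dt e.1 e.2 = 1)

lemma pairs (s : ℝ) (hs : 0 < s) : ∃ C : ℕ, ∀ X : ℝ, 1 ≤ X → ∀ T : Finset Gi,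
    (∀ z ∈ T, prim z ∧ s * X < (nm z : ℝ)) →
      (P1 T X).card ≤ C * T.card ∧ (P2 T X).card ≤ C * T.card := by
  obtain ⟨C, hC⟩ := Pool.Agent.W395.EC.ln s hs
  refine ⟨C, fun X hX T hT => ⟨?_, ?_⟩⟩
  · refine card_le_mul_card_image_of_maps_to (f := Prod.fst) (t := T) ?_ C ?_
    · intro e he
      unfold P1 at he
      rw [mem_filter, mem_product] at he
      exact he.1.1
    · intro v hv
      refine le_trans ?_ (hC X v 1 hX (hT v hv).1 (hT v hv).2)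
      refine card_le_card_of_injOn Prod.snd ?_ ?_
      · intro e he
        unfold P1 at he
        rw [mem_coe, mem_filter, mem_filter, mem_product] at he
        rw [mem_coe, mem_filter]
        obtain ⟨⟨⟨-, h2⟩, h3⟩, h4⟩ := he
        refine ⟨h2, ?_⟩
        rw [← h4]
        exact h3
      · intro e he e' he' hee
        rw [mem_coe, mem_filter] at he he'
        exact Prod.ext (he.2.trans he'.2.symm) hee
  · refine card_le_mul_card_image_of_maps_to (f := Prod.snd) (t := T) ?_ C ?_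
    · intro e he
      unfold P2 at he
      rw [mem_filter, mem_product] at he
      exact he.1.2
    · intro v hv
      refine le_trans ?_ (hC X v (-1) hX (hT v hv).1 (hT v hv).2)
      refine card_le_card_of_injOn Prod.fst ?_ ?_
      · intro e he
        unfold P2 at he
        rw [mem_coe, mem_filter, mem_filter, mem_product] at he
        rw [mem_coe, mem_filter]
        obtain ⟨⟨⟨h1, -⟩, h3⟩, h4⟩ := he
        refine ⟨h1, ?_⟩
        rw [← h4]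
        unfold dt at h3 ⊢
        linarith
      · intro e he e' he' hee
        rw [mem_coe, mem_filter] at he he'
        exact Prod.ext hee (he.2.trans he'.2.symm)

/-- the pairs in the windows -/
noncomputable def FF (s₁ s₂ s₃ s₄ X : ℝ) : Finset (Gi × Gi) := by
  classical
  exact (dedge 0 1 X).filter (fun e => 0 < ip e.1 e.2 ∧ s₁ * X < (nm e.1 : ℝ) ∧
    (nm e.1 : ℝ) ≤ s₂ * X ∧ s₃ * X < (nm e.2 : ℝ) ∧ (nm e.2 : ℝ) ≤ s₄ * X)

lemma mem_FF {s₁ s₂ s₃ s₄ X : ℝ} {e : Gi × Gi} : e ∈ FF s₁ s₂ s₃ s₄ X ↔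
    (((prim e.1 ∧ (nm e.1 : ℝ) ≤ X) ∧ (prim e.2 ∧ (nm e.2 : ℝ) ≤ X)) ∧ dt e.1 e.2 = 1) ∧
      0 < ip e.1 e.2 ∧ s₁ * X < (nm e.1 : ℝ) ∧
    (nm e.1 : ℝ) ≤ s₂ * X ∧ s₃ * X < (nm e.2 : ℝ) ∧ (nm e.2 : ℝ) ≤ s₄ * X := by
  classical
  unfold FF dedge
  rw [mem_filter, mem_filter, mem_product, mem_pball hD, mem_pball hD]

lemma AG_eq (g : Gi × Gi → ℂ) (s₁ s₂ s₃ s₄ X : ℝ) :
    AG g s₁ s₂ s₃ s₄ X = ∑ e ∈ FF s₁ s₂ s₃ s₄ X, g e := by
  unfold AG FF
  rfl

lemma nsl {g : Gi × Gi → ℂ} (hg : ∀ e, ‖g e‖ ≤ 1) (S : Finset (Gi × Gi)) :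
    ‖∑ e ∈ S, g e‖ ≤ (S.card : ℝ) := by
  refine (norm_sum_le _ _).trans ?_
  refine (sum_le_sum fun e _ => hg e).trans ?_
  rw [sum_const, nsmul_eq_mul, mul_one]

lemma one_le_nm {s X : ℝ} {z : Gi} (hs : 0 < s * X) (h : s * X < (nm z : ℝ)) : 1 ≤ nm z := by
  have : (0 : ℝ) < nm z := hs.trans h
  exact_mod_cast this

theorem regx : S_REGX := by
  intro g hg s₁ s₂ s₃ s₄ h1 h12 h2 h3 h34 h4
  obtain ⟨s, hs, hs1, hs2, hs3, hs4⟩ : ∃ s : ℝ, 0 < s ∧ s ≤ s₁ ∧ s ≤ s₂ ∧ s ≤ s₃ ∧ s ≤ s₄ :=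
    ⟨min s₁ s₃, lt_min h1 h3, min_le_left _ _, (min_le_left _ _).trans h12.le, min_le_right _ _,
      (min_le_right _ _).trans h34.le⟩
  obtain ⟨K, C₀, hK, hC₀, hcnt⟩ := cntb
  obtain ⟨C₁, hC₁, hthin⟩ := thin_card
  obtain ⟨C₂, hpair⟩ := pairs s hs
  refine ⟨C₂ * (K + C₀) + 4 * (C₂ * C₁) + 1, by positivity, ?_, ?_⟩
  · intro X hX
    rw [AG_eq]
    refine (nsl hg _).trans ?_
    rcases lt_or_ge X 1 with hX1 | hX1
    · have : FF s₁ s₂ s₃ s₄ X = ∅ := by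
        rw [eq_empty_iff_forall_notMem]
        intro e he
        rw [mem_FF] at he
        have h5 : 1 ≤ nm e.1 := one_le_nm (by positivity) he.2.2.1
        have h6 : (1 : ℝ) ≤ nm e.1 := by exact_mod_cast h5
        linarith [he.1.1.1.2]
      rw [this, card_empty, Nat.cast_zero]
      positivity
    · obtain ⟨T, hT⟩ : ∃ T : Finset Gi, T = thin (s * X) X := ⟨_, rfl⟩
      have hsub : FF s₁ s₂ s₃ s₄ X ⊆ P1 T X := by
        intro e he
        rw [mem_FF] at he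
        obtain ⟨⟨⟨⟨a1, a2⟩, a3, a4⟩, a5⟩, a6, a7, a8, a9, a10⟩ := he
        unfold P1
        rw [mem_filter, mem_product, mem_ball hD, hT, mem_thin]
        refine ⟨⟨⟨⟨a1, a2⟩, ?_⟩, one_le_nm (by positivity) a9, by linarith⟩, a5⟩
        exact lt_of_le_of_lt (by gcongr) a7
      have hp := (hpair X hX1 T (fun z hz => by
        rw [hT, mem_thin] at hz
        exact ⟨hz.1.1, hz.2⟩)).1
      have hTb : T ⊆ ball 0 1 X := by
        intro z hz
        rw [hT, mem_thin] at hz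
        rw [mem_ball hD]
        exact ⟨one_le_nm (by positivity) hz.2, hz.1.2⟩
      have hb := (abs_le.1 (hcnt X hX1)).2
      have hsq : Real.sqrt X ≤ X := by
        rw [Real.sqrt_le_left (by linarith)]
        nlinarith
      have c1 : ((FF s₁ s₂ s₃ s₄ X).card : ℝ) ≤ C₂ * (T.card : ℝ) := by
        exact_mod_cast (card_le_card hsub).trans hp
      have c2 : (T.card : ℝ) ≤ ((ball 0 1 X : Finset Gi).card : ℝ) := by
        exact_mod_cast card_le_card hTb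
      have c3 : C₀ * Real.sqrt X ≤ C₀ * X := by gcongr
      have c4 : (T.card : ℝ) ≤ (K + C₀) * X := by linarith
      have c5 : (C₂ : ℝ) * (T.card : ℝ) ≤ C₂ * ((K + C₀) * X) := by gcongr
      have c6 : 0 ≤ (4 * ((C₂ : ℝ) * C₁) + 1) * X := by positivity
      calc ((FF s₁ s₂ s₃ s₄ X).card : ℝ) ≤ C₂ * ((K + C₀) * X) := c1.trans c5
        _ ≤ C₂ * ((K + C₀) * X) + (4 * ((C₂ : ℝ) * C₁) + 1) * X := by linarith
        _ = _ := by ring
  · intro δ hδ hδ1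
    obtain ⟨Y₁, hY₁⟩ := hthin s₁ h1 (by linarith) δ hδ hδ1
    obtain ⟨Y₂, hY₂⟩ := hthin s₂ (h1.trans h12) h2 δ hδ hδ1
    obtain ⟨Y₃, hY₃⟩ := hthin s₃ h3 (by linarith) δ hδ hδ1
    obtain ⟨Y₄, hY₄⟩ := hthin s₄ (h3.trans h34) h4 δ hδ hδ1
    refine ⟨max 1 (max (max Y₁ Y₂) (max Y₃ Y₄)), ?_⟩
    intro X X' hX hXX hX'
    have hX1 : 1 ≤ X := (le_max_left _ _).trans hX
    have hXm : max (max Y₁ Y₂) (max Y₃ Y₄) ≤ X := (le_max_right _ _).trans hX
    have y1 : Y₁ ≤ X := ((le_max_left _ _).trans (le_max_left _ _)).trans hXm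
    have y2 : Y₂ ≤ X := ((le_max_right _ _).trans (le_max_left _ _)).trans hXm
    have y3 : Y₃ ≤ X := ((le_max_left _ _).trans (le_max_right _ _)).trans hXm
    have y4 : Y₄ ≤ X := ((le_max_right _ _).trans (le_max_right _ _)).trans hXm
    have t1 := hY₁ X X' y1 hXX hX'
    have t2 := hY₂ X X' y2 hXX hX'
    have t3 := hY₃ X X' y3 hXX hX'
    have t4 := hY₄ X X' y4 hXX hX'
    have hX0 : 0 < X := by linarith
    have hX'0 : 0 < X' := by linarith
    have h2X : X' ≤ 2 * X := by nlinarith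
    classical
    have key : ∀ (σ : ℝ), s ≤ σ → ∀ z ∈ thin (σ * X) (σ * X'), prim z ∧ s * X < (nm z : ℝ) := by
      intro σ hσ z hz
      rw [mem_thin] at hz
      exact ⟨hz.1.1, lt_of_le_of_lt (by gcongr) hz.2⟩
    have p1 := (hpair X hX1 (thin (s₁ * X) (s₁ * X')) (key s₁ hs1)).1
    have p2 := (hpair X hX1 (thin (s₂ * X) (s₂ * X')) (key s₂ hs2)).1
    have p3 := (hpair X hX1 (thin (s₃ * X) (s₃ * X')) (key s₃ hs3)).2
    have p4 := (hpair X hX1 (thin (s₄ * X) (s₄ * X')) (key s₄ hs4)).2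
    have i1 : s₁ * X ≤ s₁ * X' := by gcongr
    have i2 : s₂ * X ≤ s₂ * X' := mul_le_mul_of_nonneg_left hXX (by linarith)
    have i3 : s₃ * X ≤ s₃ * X' := by gcongr
    have i4 : s₄ * X ≤ s₄ * X' := mul_le_mul_of_nonneg_left hXX (by linarith)
    have j2 : s₂ * X ≤ X := by nlinarith
    have j4 : s₄ * X ≤ X := by nlinarith
    have hsubA : FF s₁ s₂ s₃ s₄ X' \ FF s₁ s₂ s₃ s₄ X ⊆
        P1 (thin (s₂ * X) (s₂ * X')) X ∪ P2 (thin (s₄ * X) (s₄ * X')) X := by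
      intro e he
      rw [mem_sdiff, mem_FF, mem_FF] at he
      obtain ⟨⟨⟨⟨⟨a1, a2⟩, a3, a4⟩, a5⟩, a6, a7, a8, a9, a10⟩, hn⟩ := he
      have b1 : 1 ≤ nm e.1 := one_le_nm (by positivity) a7
      have b2 : 1 ≤ nm e.2 := one_le_nm (by positivity) a9
      rw [mem_union]
      unfold P1 P2
      rw [mem_filter, mem_product, mem_ball hD, mem_thin, mem_filter, mem_product, mem_ball hD,
        mem_thin]
      by_contra hc
      push Not at hc
      apply hn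
      have k1 : (nm e.1 : ℝ) ≤ s₂ * X := by
        by_contra hk
        push Not at hk
        exact hc.1 ⟨⟨⟨a1, a8⟩, hk⟩, b2, by linarith⟩ a5
      have k2 : (nm e.2 : ℝ) ≤ s₄ * X := by
        by_contra hk
        push Not at hk
        exact hc.2 ⟨⟨b1, by linarith⟩, ⟨a3, a10⟩, hk⟩ a5
      exact ⟨⟨⟨⟨a1, k1.trans j2⟩, a3, k2.trans j4⟩, a5⟩, a6, i1.trans_lt a7, k1, i3.trans_lt a9, k2⟩
    have hsubB : FF s₁ s₂ s₃ s₄ X \ FF s₁ s₂ s₃ s₄ X' ⊆
        P1 (thin (s₁ * X) (s₁ * X')) X ∪ P2 (thin (s₃ * X) (s₃ * X')) X := by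
      intro e he
      rw [mem_sdiff, mem_FF, mem_FF] at he
      obtain ⟨⟨⟨⟨⟨a1, a2⟩, a3, a4⟩, a5⟩, a6, a7, a8, a9, a10⟩, hn⟩ := he
      have b1 : 1 ≤ nm e.1 := one_le_nm (by positivity) a7
      have b2 : 1 ≤ nm e.2 := one_le_nm (by positivity) a9
      rw [mem_union]
      unfold P1 P2
      rw [mem_filter, mem_product, mem_ball hD, mem_thin, mem_filter, mem_product, mem_ball hD,
        mem_thin]
      by_contra hc
      push Not at hc
      apply hn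
      have k1 : s₁ * X' < (nm e.1 : ℝ) := by
        by_contra hk
        push Not at hk
        exact hc.1 ⟨⟨⟨a1, hk⟩, a7⟩, b2, by linarith⟩ a5
      have k2 : s₃ * X' < (nm e.2 : ℝ) := by
        by_contra hk
        push Not at hk
        exact hc.2 ⟨⟨b1, by linarith⟩, ⟨a3, hk⟩, a9⟩ a5
      exact ⟨⟨⟨⟨a1, a2.trans hXX⟩, a3, a4.trans hXX⟩, a5⟩, a6, k1, a8.trans i2, k2, a10.trans i4⟩
    have cA : ((FF s₁ s₂ s₃ s₄ X' \ FF s₁ s₂ s₃ s₄ X).card : ℝ) ≤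
        C₂ * ((thin (s₂ * X) (s₂ * X')).card : ℝ) + C₂ * ((thin (s₄ * X) (s₄ * X')).card : ℝ) := by
      exact_mod_cast ((card_le_card hsubA).trans (card_union_le _ _)).trans (add_le_add p2 p4)
    have cB : ((FF s₁ s₂ s₃ s₄ X \ FF s₁ s₂ s₃ s₄ X').card : ℝ) ≤
        C₂ * ((thin (s₁ * X) (s₁ * X')).card : ℝ) + C₂ * ((thin (s₃ * X) (s₃ * X')).card : ℝ) := by
      exact_mod_cast ((card_le_card hsubB).trans (card_union_le _ _)).trans (add_le_add p1 p3)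
    have u1 : (C₂ : ℝ) * ((thin (s₁ * X) (s₁ * X')).card : ℝ) ≤ C₂ * (C₁ * δ * X) := by gcongr
    have u2 : (C₂ : ℝ) * ((thin (s₂ * X) (s₂ * X')).card : ℝ) ≤ C₂ * (C₁ * δ * X) := by gcongr
    have u3 : (C₂ : ℝ) * ((thin (s₃ * X) (s₃ * X')).card : ℝ) ≤ C₂ * (C₁ * δ * X) := by gcongr
    have u4 : (C₂ : ℝ) * ((thin (s₄ * X) (s₄ * X')).card : ℝ) ≤ C₂ * (C₁ * δ * X) := by gcongr
    rw [AG_eq, AG_eq, ← sum_sdiff_sub_sum_sdiff]
    refine (norm_sub_le _ _).trans ?_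
    have v1 := nsl hg (FF s₁ s₂ s₃ s₄ X' \ FF s₁ s₂ s₃ s₄ X)
    have v2 := nsl hg (FF s₁ s₂ s₃ s₄ X \ FF s₁ s₂ s₃ s₄ X')
    have c6 : 0 ≤ ((C₂ : ℝ) * (K + C₀) + 1) * (δ * X) := by positivity
    calc _ ≤ 4 * (C₂ * (C₁ * δ * X)) := by linarith
      _ ≤ 4 * (C₂ * (C₁ * δ * X)) + ((C₂ : ℝ) * (K + C₀) + 1) * (δ * X) := by linarith
      _ = _ := by ring

end Pool.Agent.W108.EX
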